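import Pool.Agent.V1174.QR.Ana

/-!
# `q`-deformed real numbers: formal power series of truncated continued fractions
-/

set_option autoImplicit false

namespace Pool.Agent.V1174.QR

open Filter Topology PowerSeries

noncomputable section

/-- `[n]_q` as a power series with integer coefficients -/
def Gz (n : ℕ) : PowerSeries ℤ := ∑ i ∈ Finset.range n, X ^ i

/-- truncated continued fraction as a power series with integer coefficients -/
def Pz : ℕ → (ℕ → ℕ) → PowerSeries ℤ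
  | 0, c => Gz (c 0)
  | N + 1, c => Gz (c 0) - X ^ (c 0 - 1) * invOfUnit (Pz N (fun n => c (n + 1))) 1

lemma Gz_succ (n : ℕ) : Gz (n + 1) = 1 + X * Gz n := by
  unfold Gz
  rw [Finset.sum_range_succ', Finset.mul_sum]
  simp [pow_succ, mul_comm, add_comm]

lemma constantCoeff_Gz (n : ℕ) (hn : 1 ≤ n) : constantCoeff (Gz n) = 1 := by
  obtain ⟨m, rfl⟩ : ∃ m, n = m + 1 := ⟨n - 1, by omega⟩
  rw [Gz_succ]
  simp

lemma constantCoeff_Pz (N : ℕ) : ∀ c : ℕ → ℕ, (∀ n, 2 ≤ c n) → constantCoeff (Pz N c) = 1 := by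
  cases N with
  | zero => intro c hc; exact constantCoeff_Gz _ (by have := hc 0; omega)
  | succ N =>
    intro c hc
    have h0 := hc 0
    obtain ⟨m, hm⟩ : ∃ m, c 0 - 1 = m + 1 := ⟨c 0 - 2, by omega⟩
    show constantCoeff (Gz (c 0) - X ^ (c 0 - 1) * _) = 1
    rw [map_sub, constantCoeff_Gz _ (by omega), hm, pow_succ]
    simp

lemma mul_inv_Pz (N : ℕ) (c : ℕ → ℕ) (hc : ∀ n, 2 ≤ c n) :
    Pz N c * invOfUnit (Pz N c) 1 = 1 :=
  mul_invOfUnit _ _ (by rw [constantCoeff_Pz N c hc]; rfl)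

lemma stab (N : ℕ) : ∀ c : ℕ → ℕ, (∀ n, 2 ≤ c n) →
    (X : PowerSeries ℤ) ^ (N + 1) ∣ Pz (N + 1) c - Pz N c := by
  induction N with
  | zero =>
    intro c hc
    have h0 := hc 0
    obtain ⟨m, hm⟩ : ∃ m, c 0 - 1 = 1 + m := ⟨c 0 - 2, by omega⟩
    refine ⟨-(X ^ m * invOfUnit (Pz 0 (fun n => c (n + 1))) 1), ?_⟩
    show Gz (c 0) - X ^ (c 0 - 1) * invOfUnit (Pz 0 (fun n => c (n + 1))) 1 - Gz (c 0) = _
    rw [hm, pow_add]
    ring
  | succ N ih =>
    intro c hc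
    have h0 := hc 0
    have hc' : ∀ n, 2 ≤ c (n + 1) := fun n => hc (n + 1)
    obtain ⟨m, hm⟩ : ∃ m, c 0 - 1 = 1 + m := ⟨c 0 - 2, by omega⟩
    obtain ⟨D, hD⟩ := ih (fun n => c (n + 1)) hc'
    set A := Pz (N + 1) (fun n => c (n + 1)) with hA
    set B := Pz N (fun n => c (n + 1)) with hB
    have hA1 : A * invOfUnit A 1 = 1 := mul_inv_Pz (N + 1) _ hc'
    have hB1 : B * invOfUnit B 1 = 1 := mul_inv_Pz N _ hc'
    refine ⟨X ^ m * D * invOfUnit A 1 * invOfUnit B 1, ?_⟩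
    show Gz (c 0) - X ^ (c 0 - 1) * invOfUnit A 1 - (Gz (c 0) - X ^ (c 0 - 1) * invOfUnit B 1) = _
    have h1 : invOfUnit B 1 - invOfUnit A 1 = (A - B) * invOfUnit A 1 * invOfUnit B 1 := by
      calc invOfUnit B 1 - invOfUnit A 1
          = (A * invOfUnit A 1) * invOfUnit B 1 - (B * invOfUnit B 1) * invOfUnit A 1 := by
            rw [hA1, hB1, one_mul, one_mul]
        _ = _ := by ring
    calc Gz (c 0) - X ^ (c 0 - 1) * invOfUnit A 1 - (Gz (c 0) - X ^ (c 0 - 1) * invOfUnit B 1)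
        = X ^ (c 0 - 1) * (invOfUnit B 1 - invOfUnit A 1) := by ring
      _ = X ^ (1 + m) * ((X ^ (N + 1) * D) * invOfUnit A 1 * invOfUnit B 1) := by
          rw [h1, hD, hm]
      _ = X ^ (N + 1 + 1) * (X ^ m * D * invOfUnit A 1 * invOfUnit B 1) := by
          rw [pow_add, pow_add _ (N + 1) 1]
          ring

lemma coeff_stab (c : ℕ → ℕ) (hc : ∀ n, 2 ≤ c n) (m N : ℕ) (h : m ≤ N) :
    coeff m (Pz N c) = coeff m (Pz m c) := by
  induction N, h using Nat.le_induction with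
  | base => rfl
  | succ N hN ih =>
    rw [← ih]
    have h1 := stab N c hc
    rw [X_pow_dvd_iff] at h1
    have h2 := h1 m (by omega)
    rw [map_sub] at h2
    omega

/-- the limit series -/
def Lz (c : ℕ → ℕ) : PowerSeries ℤ := PowerSeries.mk fun m => coeff m (Pz m c)

lemma coeff_Lz (c : ℕ → ℕ) (hc : ∀ n, 2 ≤ c n) (m N : ℕ) (h : m ≤ N) :
    coeff m (Lz c) = coeff m (Pz N c) := by
  rw [Lz, coeff_mk, coeff_stab c hc m N h]

/-- coefficients in `ℂ` -/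
def toC : PowerSeries ℤ →+* PowerSeries ℂ := PowerSeries.map (Int.castRingHom ℂ)

lemma coeff_toC (P : PowerSeries ℤ) (n : ℕ) : coeff n (toC P) = ((coeff n P : ℤ) : ℂ) := by
  unfold toC
  rw [coeff_map]
  rfl

lemma Rep_Gz (n : ℕ) : Rep (toC (Gz n)) (fun q => gC q n) := by
  induction n with
  | zero =>
    have h := Rep.const 0
    simpa [Gz, gC, toC] using h
  | succ n ih =>
    have h := (Rep.const 1).add ((Rep.X_pow 1).mul ih)
    have h1 : toC (Gz (n + 1)) = C 1 + X ^ 1 * toC (Gz n) := by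
      rw [Gz_succ]
      simp [toC]
    rw [h1]
    simpa only [gC_succ', pow_one] using h

lemma toC_inv (N : ℕ) (c : ℕ → ℕ) (hc : ∀ n, 2 ≤ c n) :
    toC (invOfUnit (Pz N c) 1) = (toC (Pz N c))⁻¹ := by
  have h1 : constantCoeff (toC (Pz N c)) ≠ 0 := by
    rw [← coeff_zero_eq_constantCoeff_apply, coeff_toC, coeff_zero_eq_constantCoeff_apply,
      constantCoeff_Pz N c hc]
    norm_num
  symm
  rw [PowerSeries.inv_eq_iff_mul_eq_one h1, mul_comm, ← map_mul, mul_inv_Pz N c hc, map_one]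

lemma Rep_Pz (N : ℕ) : ∀ c : ℕ → ℕ, (∀ n, 2 ≤ c n) → Rep (toC (Pz N c)) (Fc N c) := by
  induction N with
  | zero => intro c _; exact Rep_Gz (c 0)
  | succ N ih =>
    intro c hc
    have hc' : ∀ n, 2 ≤ c (n + 1) := fun n => hc (n + 1)
    have h1 := ih (fun n => c (n + 1)) hc'
    have h2 := h1.inv (diff_Fc N _ hc') (fun q hq => (InV_Fc hq N _ hc').ne_zero hq)
    have h3 := (Rep_Gz (c 0)).sub ((Rep.X_pow (c 0 - 1)).mul h2)
    have h4 : toC (Pz (N + 1) c) =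
        toC (Gz (c 0)) - X ^ (c 0 - 1) * (toC (Pz N fun n => c (n + 1)))⁻¹ := by
      rw [← toC_inv N _ hc']
      show toC (Gz (c 0) - X ^ (c 0 - 1) * invOfUnit (Pz N (fun n => c (n + 1))) 1) = _
      rw [map_sub, map_mul]
      simp [toC]
    rw [h4]
    exact h3

/-- Cauchy's estimate for the truncations -/
lemma coeff_Pz_le (c : ℕ → ℕ) (hc : ∀ n, 2 ≤ c n) (r : ℝ) (h0 : 0 < r) (hr : r < Rs) (N n : ℕ) :
    |((coeff n (Pz N c) : ℤ) : ℝ)| ≤ 2 / r ^ n := by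
  have h1 := (Rep_Pz N c hc).coeff_le (diff_Fc N c hc) r 2 h0 hr (by
    intro q hq
    have h2 := (InV_Fc (q := q) (by rw [hq]; exact hr) N c hc).norm_le
    have h3 := sqrt_bound (norm_nonneg q) (by rw [hq]; exact hr)
    have h4 := norm_nonneg q
    linarith) n
  rw [coeff_toC, Complex.norm_intCast] at h1
  exact h1

lemma coeff_Lz_le (c : ℕ → ℕ) (hc : ∀ n, 2 ≤ c n) (r : ℝ) (h0 : 0 < r) (hr : r < Rs) (n : ℕ) :
    |((coeff n (Lz c) : ℤ) : ℝ)| ≤ 2 / r ^ n := by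
  rw [coeff_Lz c hc n n le_rfl]
  exact coeff_Pz_le c hc r h0 hr n n

/-- the value of the limit series is in the disc `|v - 1| ≤ √|q|` -/
lemma Lz_value (c : ℕ → ℕ) (hc : ∀ n, 2 ≤ c n) (q : ℂ) (hq : ‖q‖ < Rs) :
    Summable (fun n => ‖((coeff n (Lz c) : ℤ) : ℂ) * q ^ n‖) ∧
    ‖∑' n, ((coeff n (Lz c) : ℤ) : ℂ) * q ^ n - 1‖ ≤ √‖q‖ := by
  obtain ⟨r, hr1, hr2⟩ := exists_between hq
  have hr0 : 0 < r := (norm_nonneg q).trans_lt hr1
  have hb : ∀ N n, ‖((coeff n (Pz N c) : ℤ) : ℂ) * q ^ n‖ ≤ 2 * (‖q‖ / r) ^ n := by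
    intro N n
    rw [norm_mul, norm_pow, Complex.norm_intCast, div_pow]
    have := coeff_Pz_le c hc r hr0 hr2 N n
    calc |((coeff n (Pz N c) : ℤ) : ℝ)| * ‖q‖ ^ n ≤ 2 / r ^ n * ‖q‖ ^ n := by gcongr
      _ = 2 * (‖q‖ ^ n / r ^ n) := by ring
  have hb' : ∀ n, ‖((coeff n (Lz c) : ℤ) : ℂ) * q ^ n‖ ≤ 2 * (‖q‖ / r) ^ n := by
    intro n
    rw [coeff_Lz c hc n n le_rfl]
    exact hb n n
  have hs : Summable (fun n : ℕ => 2 * (‖q‖ / r) ^ n) := by
    apply Summable.mul_left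
    apply summable_geometric_of_lt_one (by positivity)
    rw [div_lt_one hr0]
    exact hr1
  refine ⟨Summable.of_nonneg_of_le (fun n => norm_nonneg _) hb' hs, ?_⟩
  have h1 : Tendsto (fun N => ∑' n, ((coeff n (Pz N c) : ℤ) : ℂ) * q ^ n) atTop
      (𝓝 (∑' n, ((coeff n (Lz c) : ℤ) : ℂ) * q ^ n)) := by
    apply tendsto_tsum_of_dominated_convergence hs
    · intro n
      apply tendsto_const_nhds.congr'
      filter_upwards [eventually_ge_atTop n] with N hN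
      rw [coeff_Lz c hc n N hN]
    · exact Eventually.of_forall (fun N n => hb N n)
  have h2 : ∀ N, ∑' n, ((coeff n (Pz N c) : ℤ) : ℂ) * q ^ n = Fc N c q := by
    intro N
    have := (Rep_Pz N c hc q hq).tsum_eq
    simpa only [coeff_toC] using this
  simp only [h2] at h1
  have h3 := (h1.sub_const 1).norm
  apply le_of_tendsto' h3
  intro N
  exact InV_Fc hq N c hc

end

end Pool.Agent.V1174.QR
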