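import Mathlib

/-!
# `q`-deformed real numbers: the analytic part

The partial quotient maps `v ↦ [c]_q - q^(c-1) / v`, `c ≥ 2`, map the disc `|v - 1| ≤ √|q|` into itself
if `|q| < (3 - √5) / 2`.
-/

set_option autoImplicit false

namespace Pool.Agent.V1174.QR

open Filter Topology PowerSeries

noncomputable section

/-- `(3 - √5) / 2` -/
def Rs : ℝ := (3 - √5) / 2

lemma Rs_pos : 0 < Rs := by
  unfold Rs
  have : √5 < 3 := by
    rw [Real.sqrt_lt' (by norm_num)]; norm_num
  linarith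

lemma Rs_lt_one : Rs < 1 := by
  unfold Rs
  have : 1 < √5 := by
    rw [Real.lt_sqrt (by norm_num)]; norm_num
  linarith

/-- `s = √|q|` satisfies `s² + s < 1`. -/
lemma sqrt_bound {t : ℝ} (_h0 : 0 ≤ t) (h : t < Rs) : t + √t < 1 := by
  have h5 : √5 ^ 2 = 5 := Real.sq_sqrt (by norm_num)
  have h51 : 1 < √5 := by
    rw [Real.lt_sqrt (by norm_num)]; norm_num
  have h1 : √t < (√5 - 1) / 2 := by
    rw [Real.sqrt_lt' (by linarith)]
    unfold Rs at h
    nlinarith
  unfold Rs at h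
  linarith

/-- the polynomial `[n]_q` -/
def gC (q : ℂ) (n : ℕ) : ℂ := ∑ i ∈ Finset.range n, q ^ i

lemma gC_succ' (q : ℂ) (n : ℕ) : gC q (n + 1) = 1 + q * gC q n := by
  unfold gC
  rw [Finset.sum_range_succ', Finset.mul_sum]
  simp [pow_succ, mul_comm, add_comm]

lemma gC_succ (q : ℂ) (n : ℕ) : gC q (n + 1) = gC q n + q ^ n := by
  unfold gC
  rw [Finset.sum_range_succ]

/-- the disc `|v - 1| ≤ √|q|` -/
def InV (q v : ℂ) : Prop := ‖v - 1‖ ≤ √‖q‖

lemma InV.norm_le {q v : ℂ} (h : InV q v) : ‖v‖ ≤ 1 + √‖q‖ := by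
  have := norm_add_le (v - 1) 1
  simp only [sub_add_cancel, norm_one] at this
  unfold InV at h
  linarith

lemma InV.le_norm {q v : ℂ} (h : InV q v) : 1 - √‖q‖ ≤ ‖v‖ := by
  have := norm_sub_norm_le (1 : ℂ) (1 - v)
  simp only [sub_sub_cancel, norm_one] at this
  unfold InV at h
  rw [norm_sub_rev] at h
  linarith

lemma InV.ne_zero {q v : ℂ} (hq : ‖q‖ < Rs) (h : InV q v) : v ≠ 0 := by
  have h1 := sqrt_bound (norm_nonneg q) hq
  have h2 := h.le_norm
  have h3 := norm_nonneg q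
  intro h0
  rw [h0, norm_zero] at h2
  linarith

/-- `v ↦ 1 + q v` -/
lemma InV.step {q v : ℂ} (_hq : ‖q‖ < Rs) (h : ‖v‖ * √‖q‖ ≤ 1) : InV q (1 + q * v) := by
  unfold InV
  rw [add_sub_cancel_left, norm_mul]
  have h2 : 0 ≤ √‖q‖ := Real.sqrt_nonneg _
  calc ‖q‖ * ‖v‖ = (√‖q‖ * √‖q‖) * ‖v‖ := by rw [Real.mul_self_sqrt (norm_nonneg q)]
    _ = √‖q‖ * (‖v‖ * √‖q‖) := by ring
    _ ≤ √‖q‖ * 1 := by gcongr
    _ = √‖q‖ := mul_one _

lemma InV.step' {q v : ℂ} (hq : ‖q‖ < Rs) (h : InV q v) : InV q (1 + q * v) := by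
  apply InV.step hq
  have h1 := sqrt_bound (norm_nonneg q) hq
  have h2 := h.norm_le
  have h3 : ‖q‖ = √‖q‖ * √‖q‖ := (Real.mul_self_sqrt (norm_nonneg q)).symm
  have h4 : 0 ≤ √‖q‖ := Real.sqrt_nonneg _
  nlinarith

lemma InV_gC {q : ℂ} (hq : ‖q‖ < Rs) (n : ℕ) (hn : 1 ≤ n) : InV q (gC q n) := by
  induction n, hn using Nat.le_induction with
  | base => simp [InV, gC]
  | succ n _ ih => rw [gC_succ']; exact ih.step' hq

/-- the partial quotient map -/
def Ac (q : ℂ) (c : ℕ) (v : ℂ) : ℂ := gC q c - q ^ (c - 1) / v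

lemma InV_Ac {q v : ℂ} (hq : ‖q‖ < Rs) (h : InV q v) (c : ℕ) (hc : 2 ≤ c) : InV q (Ac q c v) := by
  have hv := h.ne_zero hq
  induction c, hc using Nat.le_induction with
  | base =>
    have h1 : Ac q 2 v = 1 + q * ((v - 1) / v) := by
      unfold Ac gC
      rw [Finset.sum_range_succ, Finset.sum_range_one]
      field_simp
      ring
    rw [h1]
    apply InV.step hq
    rw [norm_div]
    have h2 := sqrt_bound (norm_nonneg q) hq
    have h3 := h.le_norm
    have h4 : ‖q‖ = √‖q‖ * √‖q‖ := (Real.mul_self_sqrt (norm_nonneg q)).symm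
    have h5 : 0 ≤ √‖q‖ := Real.sqrt_nonneg _
    have h6 : ‖v - 1‖ ≤ √‖q‖ := h
    have h7 : 0 < ‖v‖ := norm_pos_iff.2 hv
    rw [div_mul_eq_mul_div, div_le_one h7]
    nlinarith
  | succ n hn ih =>
    have h1 : Ac q (n + 1) v = 1 + q * Ac q n v := by
      unfold Ac
      rw [gC_succ']
      obtain ⟨m, rfl⟩ : ∃ m, n = m + 1 := ⟨n - 1, by omega⟩
      simp only [Nat.add_sub_cancel]
      rw [pow_succ]
      ring
    rw [h1]
    exact ih.step' hq

/-- the truncated continued fraction as a function of `q` -/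
def Fc : ℕ → (ℕ → ℕ) → ℂ → ℂ
  | 0, c, q => gC q (c 0)
  | N + 1, c, q => gC q (c 0) - q ^ (c 0 - 1) / Fc N (fun n => c (n + 1)) q

lemma InV_Fc {q : ℂ} (hq : ‖q‖ < Rs) (N : ℕ) : ∀ (c : ℕ → ℕ), (∀ n, 2 ≤ c n) → InV q (Fc N c q) := by
  induction N with
  | zero => intro c hc; exact InV_gC hq _ (by have := hc 0; omega)
  | succ N ih =>
    intro c hc
    exact InV_Ac hq (ih _ (fun n => hc (n + 1))) _ (hc 0)

lemma diff_gC (n : ℕ) : Differentiable ℂ (fun q => gC q n) := by
  unfold gC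
  exact Differentiable.fun_sum (fun i _ => differentiable_pow i)

lemma diff_Fc (N : ℕ) : ∀ (c : ℕ → ℕ), (∀ n, 2 ≤ c n) →
    DifferentiableOn ℂ (Fc N c) (Metric.ball 0 Rs) := by
  induction N with
  | zero =>
    intro c _
    exact (diff_gC (c 0)).differentiableOn
  | succ N ih =>
    intro c hc
    have h1 := ih (fun n => c (n + 1)) (fun n => hc (n + 1))
    apply DifferentiableOn.sub
    · exact (diff_gC (c 0)).differentiableOn
    · apply DifferentiableOn.div
      · exact (differentiable_pow _).differentiableOn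
      · exact h1
      · intro q hq
        have hq' : ‖q‖ < Rs := by simpa using hq
        exact (InV_Fc hq' N _ (fun n => hc (n + 1))).ne_zero hq'

/-- the power series `P` has sum `f` on the disc of radius `Rs`. -/
def Rep (P : PowerSeries ℂ) (f : ℂ → ℂ) : Prop :=
  ∀ q : ℂ, ‖q‖ < Rs → HasSum (fun n => coeff n P * q ^ n) (f q)

lemma ball_eventually : ∀ᶠ z : ℂ in 𝓝 0, ‖z‖ < Rs := by
  have := Metric.ball_mem_nhds (0 : ℂ) Rs_pos
  filter_upwards [this] with z hz
  simpa using hz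

lemma Rep.hasFPS {P : PowerSeries ℂ} {f : ℂ → ℂ} (h : Rep P f) :
    HasFPowerSeriesAt f (FormalMultilinearSeries.ofScalars ℂ (fun n => coeff n P)) 0 := by
  rw [hasFPowerSeriesAt_iff]
  filter_upwards [ball_eventually] with z hz
  rw [zero_add]
  have h1 := h z hz
  have h2 : (fun n => z ^ n • (FormalMultilinearSeries.ofScalars ℂ
      (fun n => coeff n P)).coeff n) = fun n => coeff n P * z ^ n := by
    funext n
    rw [FormalMultilinearSeries.coeff_ofScalars, smul_eq_mul, mul_comm]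
  rw [h2]
  exact h1

lemma Rep.unique {P P' : PowerSeries ℂ} {f : ℂ → ℂ} (h : Rep P f) (h' : Rep P' f) : P = P' := by
  have h1 := h.hasFPS.eq_formalMultilinearSeries h'.hasFPS
  ext n
  have h2 := congrArg (fun p => FormalMultilinearSeries.coeff p n) h1
  simpa only [FormalMultilinearSeries.coeff_ofScalars] using h2

lemma Rep.add {P P' : PowerSeries ℂ} {f g : ℂ → ℂ} (h : Rep P f) (h' : Rep P' g) :
    Rep (P + P') (fun q => f q + g q) := by
  intro q hq
  have h1 := (h q hq).add (h' q hq)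
  simpa only [map_add, add_mul] using h1

lemma Rep.sub {P P' : PowerSeries ℂ} {f g : ℂ → ℂ} (h : Rep P f) (h' : Rep P' g) :
    Rep (P - P') (fun q => f q - g q) := by
  intro q hq
  have h1 := (h q hq).sub (h' q hq)
  simpa only [map_sub, sub_mul] using h1

lemma Rep.mul {P P' : PowerSeries ℂ} {f g : ℂ → ℂ} (h : Rep P f) (h' : Rep P' g) :
    Rep (P * P') (fun q => f q * g q) := by
  intro q hq
  have h1 := h q hq
  have h2 := h' q hq
  have e1 : Summable (fun n => ‖coeff n P * q ^ n‖) := h1.summable.norm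
  have e2 : Summable (fun n => ‖coeff n P' * q ^ n‖) := h2.summable.norm
  have h3 := tsum_mul_tsum_eq_tsum_sum_antidiagonal_of_summable_norm e1 e2
  rw [h1.tsum_eq, h2.tsum_eq] at h3
  have h4 : (fun n : ℕ => ∑ kl ∈ Finset.HasAntidiagonal.antidiagonal n, coeff kl.1 P * q ^ kl.1 *
      (coeff kl.2 P' * q ^ kl.2)) = fun n : ℕ => coeff n (P * P') * q ^ n := by
    funext n
    rw [coeff_mul, Finset.sum_mul]
    apply Finset.sum_congr rfl
    intro kl hkl
    rw [Finset.HasAntidiagonal.mem_antidiagonal] at hkl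
    rw [← hkl, pow_add]
    ring
  rw [h4] at h3
  have h5 : Summable (fun n => coeff n (P * P') * q ^ n) := by
    rw [← h4]
    exact (summable_norm_sum_mul_antidiagonal_of_summable_norm e1 e2).of_norm
  show HasSum _ (f q * g q)
  rw [h3]
  exact h5.hasSum

lemma Rep.of_diff {f : ℂ → ℂ} (h : DifferentiableOn ℂ f (Metric.ball 0 Rs)) :
    Rep (PowerSeries.mk fun n => ((n.factorial : ℂ))⁻¹ * iteratedDeriv n f 0) f := by
  intro q hq
  have h1 := Complex.hasSum_taylorSeries_on_ball (f := f) (c := 0) (r := Rs) (z := q) h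
    (by simpa using hq)
  have h2 : (fun n : ℕ => ((n.factorial : ℂ))⁻¹ • (q - 0) ^ n • iteratedDeriv n f 0) =
      fun n => coeff n (PowerSeries.mk fun n => ((n.factorial : ℂ))⁻¹ * iteratedDeriv n f 0) *
        q ^ n := by
    funext n
    rw [coeff_mk, sub_zero, smul_eq_mul, smul_eq_mul]
    ring
  rw [h2] at h1
  exact h1

lemma Rep.const (a : ℂ) : Rep (C a) (fun _ => a) := by
  intro q _
  have h := hasSum_single (f := fun n => coeff n (C a) * q ^ n) 0 (by
    intro n hn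
    rw [coeff_C, if_neg hn, zero_mul])
  simpa using h

lemma Rep.X_pow (k : ℕ) : Rep (X ^ k) (fun q => q ^ k) := by
  intro q _
  have h := hasSum_single (f := fun n => coeff n (X ^ k : PowerSeries ℂ) * q ^ n) k (by
    intro n hn
    rw [coeff_X_pow, if_neg hn, zero_mul])
  simpa [coeff_X_pow] using h

/-- the reciprocal -/
lemma Rep.inv {P : PowerSeries ℂ} {f : ℂ → ℂ} (h : Rep P f)
    (hd : DifferentiableOn ℂ f (Metric.ball 0 Rs)) (h0 : ∀ q, ‖q‖ < Rs → f q ≠ 0) :
    Rep P⁻¹ (fun q => (f q)⁻¹) := by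
  have hd' : DifferentiableOn ℂ (fun q => (f q)⁻¹) (Metric.ball 0 Rs) := by
    apply hd.inv
    intro q hq
    exact h0 q (by simpa using hq)
  have h1 := Rep.of_diff hd'
  set B := (PowerSeries.mk fun n => ((n.factorial : ℂ))⁻¹ * iteratedDeriv n (fun q => (f q)⁻¹) 0)
    with hB
  have h2 := h.mul h1
  have h3 : Rep (1 : PowerSeries ℂ) (fun q => f q * (f q)⁻¹) := by
    intro q hq
    have := Rep.const 1 q hq
    rw [map_one] at this
    simpa only [mul_inv_cancel₀ (h0 q hq)] using this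
  have h4 := h2.unique h3
  have h5 : constantCoeff P ≠ 0 := by
    intro h6
    have := congrArg constantCoeff h4
    rw [map_mul, h6, zero_mul, map_one] at this
    exact zero_ne_one this
  have h6 : P⁻¹ = B := by
    rw [PowerSeries.inv_eq_iff_mul_eq_one h5, mul_comm]
    exact h4
  rw [h6]
  exact h1

/-- Cauchy's estimate -/
lemma Rep.coeff_le {P : PowerSeries ℂ} {f : ℂ → ℂ} (h : Rep P f)
    (hd : DifferentiableOn ℂ f (Metric.ball 0 Rs)) (r M : ℝ) (hr0 : 0 < r) (hr : r < Rs)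
    (hM : ∀ q, ‖q‖ = r → ‖f q‖ ≤ M) (n : ℕ) : ‖coeff n P‖ ≤ M / r ^ n := by
  rw [h.unique (Rep.of_diff hd), coeff_mk]
  have h1 := Complex.norm_iteratedDeriv_le_of_forall_mem_sphere_norm_le (c := 0) (R := r) (C := M)
    (f := f) n hr0 (by
      apply DifferentiableOn.diffContOnCl
      apply hd.mono
      refine Metric.closure_ball_subset_closedBall.trans ?_
      exact Metric.closedBall_subset_ball hr) (by
      intro z hz
      exact hM z (by simpa using hz))
  rw [norm_mul, norm_inv, Complex.norm_natCast]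
  have h2 : (0 : ℝ) < n.factorial := by exact_mod_cast n.factorial_pos
  calc ((n.factorial : ℝ))⁻¹ * ‖iteratedDeriv n f 0‖
      ≤ ((n.factorial : ℝ))⁻¹ * (n.factorial * M / r ^ n) := by gcongr
    _ = M / r ^ n := by field_simp

end

end Pool.Agent.V1174.QR
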